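import Pool.Agent.T6.H41.TP.A7

/-!
MP_5b7a2c_ag: log uniformization of tensor products of valuations and of towers over them, in all
dimensions and ranks.

Let `V` be a valuation ring of a field `K` over a field `k`, and let `R ⊆ V` be a noetherian
`k`-algebra with fraction field `E ⊆ K` such that `R` is a Dedekind ring or a field (for example
`R = k`) or such that `V ∩ E` is log uniformizable on `Spec R`. Suppose that `K` is reached from
`E` by finitely many steps `L ⊂ L'` of the following kinds.

(1) `L' = L(t)` with `t` transcendental, without limit key polynomials.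

(2) `L'` is a finite extension of `L` without defect.

(3) NEW: `L' = L F`, where the field `F` is finitely generated over `k` and linearly disjoint from
`L`, the valuation ring `V ∩ F` is log uniformizable, `k` is perfect or the residue field of
`V ∩ F`, and on the ring `L[F]` the valuation is the tensor product of its restrictions: every
`z ∈ L[F]` is a sum of products `a b`, `a ∈ L`, `b ∈ F`, whose values are not larger than the value
of `z`. This holds for example if the value groups of `V ∩ L` and `V ∩ F` are independent and
their residue fields are linearly disjoint over `k`; and over an algebraically closed field `k`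
valuations of `L` and `F` with values in one ordered group have a common extension of this kind.
The valuation `V ∩ F` can be arbitrary if the transcendence degree of `F` is at most `3` (Cossart
and Piltant); no assumption on limit key polynomials or on the defect is made.
More generally the factor `F` may depend on the elements `z`: it suffices that
`L' = L(w 1, ..., w m)` and that for each finite set `Z ⊆ L[w]` there is a factor `F`, the fraction
field of an algebra `B ⊆ L[w] ∩ V` of finite type, with these properties for the `z ∈ Z`. (For
`B = k[t - a]`, `a ∈ L`, this is the approximation of `t` by elements `a` of `L`.)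

The theorem: `V` is log uniformizable on `Spec A` for every `R`-algebra `A ⊆ V` of finite type with
fraction field `K`.

The proof: the steps (1) and (2) are in the starting library (Pool/Agent/H176/DT and its imports,
see KeyPolynomialTowers). For the step (3) one takes the product of two regular local rings `P ⊂ L`
and `Q ⊂ F` of the valuations in which finitely many elements and all denominators are monomials.
The localization of `P ⊗ Q` at the centre of `V` is flat over `P` and `Q`, and the residual
fibre is a localization of the tensor product of the residue fields, which is regular because the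
residue field of `Q` is separable over `k`. By the formula for heights the localization is regular
and regular parameters of `P` and `Q` are a part of a regular system of parameters. By monomial
blowings-up the products `a b` become comparable, and then every `z` is a unit times its leading
term.
-/

set_option autoImplicit false

namespace Pool.Agent.Results.MP_5b7a2c_ag.ProductTowers

open Pool.Agent.W418.LU2

/-- The local ring of `Spec B` at the centre of the valuation ring `V`: the fractions of elements
of `B` whose denominators are units of `V`. -/
def centreRing {F : Type} [Field F] (V : ValuationSubring F) (B : Subring F) : Subring F where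
  carrier := {x | ∃ a ∈ B, ∃ b ∈ B, b ≠ 0 ∧ b⁻¹ ∈ V ∧ x = a * b⁻¹}
  mul_mem' := (lo V.toSubring B).mul_mem'
  one_mem' := (lo V.toSubring B).one_mem'
  add_mem' := (lo V.toSubring B).add_mem'
  zero_mem' := (lo V.toSubring B).zero_mem'
  neg_mem' := (lo V.toSubring B).neg_mem'

/-- The chart `A[I / f]` of the blowing-up of `Spec A` in the ideal `I`. -/
def blowUpChart {F : Type} [Field F] (A : Subring F) (I : Ideal A) (f : A) : Subring F :=
  Subring.closure ((A : Set F) ∪ {z | ∃ a ∈ I, z = (a : F) / (f : F)})

/-- `P` is a regular local ring and the zero set of `J` is a divisor with strict normal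
crossings: the radical of `J` is generated by the product of some of the elements of a regular
system of parameters. -/
def RegularPair (P : Type) [CommRing P] (J : Ideal P) : Prop :=
  ∃ (_ : IsRegularLocalRing P) (n : ℕ) (x : Fin n → P) (s : Finset (Fin n)),
    Ideal.span (Set.range x) = IsLocalRing.maximalIdeal P ∧ ringKrullDim P = n ∧
      J.radical = Ideal.span {∏ i ∈ s, x i}

/-- The blowing-up of `X = Spec A` in `V(I)` is a log desingularization of `(X, V(D))` along the
valuation ring `V`. Here `f ∈ I` generates `I V`, the centre of the lift of the valuation lies in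
the chart `Spec A[I / f]`, and the ideal `D I` defines the preimage of `V(D) ∪ V(I)`. -/
def IsLogDesingularization {F : Type} [Field F] (V : ValuationSubring F) (A : Subring F)
    (D I : Ideal A) : Prop :=
  ∃ f ∈ I, f ≠ 0 ∧ (∀ a ∈ I, (a : F) / (f : F) ∈ V) ∧
    RegularPair (centreRing V (blowUpChart A I f))
      (Ideal.span {z | ∃ a ∈ D * I, (z : F) = (a : F)})

/-- The valuation ring `V` is log uniformizable on `Spec A`. (The blowings-up in the ideals
`I₀ * I₁` are cofinal: the blowing-up in `I₀ * I₁` factors through the blowing-up in `I₀`.) -/
def IsLogUniformizable {F : Type} [Field F] (V : ValuationSubring F) (A : Subring F) : Prop :=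
  ∀ D I₀ : Ideal A, D ≠ ⊥ → I₀ ≠ ⊥ →
    ∃ I₁ : Ideal A, I₁ ≠ ⊥ ∧ IsLogDesingularization V A D (I₀ * I₁)

/-- For a subring `B ⊆ V` of `K`, with fraction field `F ⊆ K`: the valuation ring `V ∩ F` of `F` is
log uniformizable on `Spec B`. -/
def RestrictionIsLogUniformizable {K : Type} [Field K] (V : ValuationSubring K)
    (B : Subring K) : Prop :=
  IsLogUniformizable (V.comap (Subfield.closure (B : Set K)).subtype)
    (B.comap (Subfield.closure (B : Set K)).subtype)

section key

open Polynomial

variable {K : Type} [Field K] (V : ValuationSubring K) {L : Subfield K} (θ : K)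

/-- The monic polynomial `ϕ` over `L` of positive degree is a key polynomial for the valuation
`f ↦ |f(θ)|` of polynomials: if `f` and `g` are nonzero polynomials of smaller degree and
`f g = q ϕ + r` with `deg r < deg ϕ`, then `|q(θ) ϕ(θ)| < |f(θ) g(θ)|`. -/
def IsKey (ϕ : L[X]) : Prop :=
  ϕ.Monic ∧ 0 < ϕ.natDegree ∧ ∀ f g : L[X], f.degree < ϕ.degree → g.degree < ϕ.degree →
    f ≠ 0 → g ≠ 0 → V.valuation (aeval θ (f * g /ₘ ϕ * ϕ)) < V.valuation (aeval θ (f * g))

/-- The polynomials of degree less than the degree of `ϕ` have an orthogonal basis over `L` with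
respect to the valuation `f ↦ |f(θ)|`. -/
def IsDefectless (ϕ : L[X]) : Prop :=
  ∃ (n : ℕ) (β : Fin n → L[X]), (∀ i, (β i).degree < ϕ.degree ∧ β i ≠ 0) ∧
    (∀ f : L[X], f.degree < ϕ.degree → ∃ c : Fin n → L, f = ∑ i, C (c i) * β i) ∧
    ∀ (c : Fin n → L) (i : Fin n), V.valuation (aeval θ (C (c i) * β i)) ≤
      V.valuation (aeval θ (∑ j, C (c j) * β j))

/-- The value of `f(θ)` is determined by `ϕ`: in the `ϕ`-adic expansion `f = ∑ f_k ϕ ^ k` with
`deg f_k < deg ϕ` the value of no term at `θ` is greater than the value of `f(θ)`. -/
def IsDetermined (ϕ f : L[X]) : Prop :=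
  ∃ (N : ℕ) (d : ℕ → L[X]), (∀ k, (d k).degree < ϕ.degree) ∧
    f = ∑ k ∈ Finset.range N, d k * ϕ ^ k ∧
    ∀ k < N, V.valuation (aeval θ (d k * ϕ ^ k)) ≤ V.valuation (aeval θ f)

end key

open Polynomial in
/-- The extension `L ⊆ L'` of subfields of `K` is finite and has no defect with respect to the
valuation ring `V` of `K`. That is, for some valuation ring `W` over `V` of some extension field
`M` of `K`, some root `ζ ∈ M` of a monic polynomial `f` over `V ∩ L` with `|f'(ζ)| = 1`, and some
nonzero elements `β i` of `L'`, the field `L'(ζ)` is the sum of the lines `L(ζ) β i`, and the `β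
i` are orthogonal over `L(ζ) = L[ζ]`. (The extension `L(ζ) / L` is unramified; for a finite
extension of henselizations of degree `e f` one can take the products of representatives of the
value group and of the residue field. For `M = K` and `L(ζ) = L` it is the condition
`[L' : L] = e f`.) -/
def IsFiniteWithoutDefect {K : Type} [Field K] (V : ValuationSubring K) (L L' : Subfield K) :
    Prop :=
  L ≤ L' ∧ ∃ (M : Type) (_ : Field M) (_ : Algebra K M) (W : ValuationSubring M) (ζ : M)
    (f : L[X]) (n : ℕ) (β : Fin n → K), W.comap (algebraMap K M) = V ∧ f.Monic ∧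
    (∀ i, (f.coeff i : K) ∈ V) ∧ eval₂ ((algebraMap K M).comp L.subtype) ζ f = 0 ∧
    W.valuation (eval₂ ((algebraMap K M).comp L.subtype) ζ (derivative f)) = 1 ∧
    (∀ i, β i ∈ L' ∧ β i ≠ 0) ∧
    (∀ z ∈ L', ∃ c : Fin n → L[X], algebraMap K M z =
      ∑ i, eval₂ ((algebraMap K M).comp L.subtype) ζ (c i) * algebraMap K M (β i)) ∧
    ∀ (c : Fin n → L[X]) (i : Fin n),
      W.valuation (eval₂ ((algebraMap K M).comp L.subtype) ζ (c i) * algebraMap K M (β i)) ≤
        W.valuation (∑ j, eval₂ ((algebraMap K M).comp L.subtype) ζ (c j) * algebraMap K M (β j))

section factor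

variable {k K : Type} [Field k] [Field K] [Algebra k K]

/-- The subfields `L` and `F` of `K` are linearly disjoint over `k`: elements `a j ∈ L` which are
linearly independent over `k` are linearly independent over `F`. -/
def AreLinearlyDisjoint (k : Type) {K : Type} [Field k] [Field K] [Algebra k K]
    (L F : Subfield K) : Prop :=
  ∀ (n : ℕ) (a b : Fin n → K), (∀ j, a j ∈ L) → (∀ j, b j ∈ F) → LinearIndependent k a →
    ∑ j, a j * b j = 0 → ∀ j, b j = 0

/-- The element `z` is a sum of products `a j * b j`, `a j ∈ L`, `b j ∈ F`, whose values (in
multiplicative notation) are at most the value of `z`. -/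
def IsSumOfProducts (V : ValuationSubring K) (L F : Subfield K) (z : K) : Prop :=
  ∃ (n : ℕ) (a b : Fin n → K), (∀ j, a j ∈ L) ∧ (∀ j, b j ∈ F) ∧ z = ∑ j, a j * b j ∧
    ∀ j, V.valuation (a j * b j) ≤ V.valuation z

/-- `B` is an affine coordinate ring of a factor of the valued field `L(W)`, as an extension of `L`,
for the elements of the set `Z`: it is a `k`-algebra of finite type contained in `L[W]` and in `V`,
its fraction field `F` is linearly disjoint from `L` over `k`, the valuation ring `V ∩ F` is log
uniformizable on `Spec B`, the field `k` is perfect or it is the residue field of `V ∩ F`, and the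
elements of `Z` are sums of products of elements of `L` and `F` of at most the same value. -/
structure IsFactor (V : ValuationSubring K) (L : Subfield K) (W Z : Finset K)
    (B : Subalgebra k K) : Prop where
  finiteType : B.FG
  le_ring : ∀ b ∈ B, b ∈ Subring.closure ((L : Set K) ∪ W)
  le_valuationRing : ∀ b ∈ B, b ∈ V
  logUniformizable : RestrictionIsLogUniformizable V B.toSubring
  residueField : PerfectField k ∨ ∀ z ∈ Subfield.closure (B : Set K), z ∈ V →
    ∃ c : k, V.valuation (z - algebraMap k K c) < 1
  linearlyDisjoint : AreLinearlyDisjoint k L (Subfield.closure (B : Set K))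
  isSumOfProducts : ∀ z ∈ Z, IsSumOfProducts V L (Subfield.closure (B : Set K)) z

end factor

open Polynomial in
/-- The subfields `L` of `K` which are reached from the subfield `E` by a tower of transcendental
steps without limit key polynomials, of finite steps without defect and of product steps. -/
inductive Tower (k : Type) {K : Type} [Field k] [Field K] [Algebra k K] (E : Subfield K)
    (V : ValuationSubring K) : Subfield K → Prop
  /-- The tower starts with `E`. -/
  | base : Tower k E V E
  /-- The step from `L` to `L(t)`, where `t` is transcendental and the value of every polynomial in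
  `t` is determined by a defectless key polynomial. -/
  | transcendental (L : Subfield K) (t : K) : Tower k E V L → Transcendental L t →
    (∀ f : L[X], ∃ ϕ : L[X], IsKey V t ϕ ∧ IsDefectless V t ϕ ∧ IsDetermined V t ϕ f) →
    Tower k E V (L ⊔ Subfield.closure {t})
  /-- The step from `L` to a finite extension `L'` without defect. -/
  | finite (L L' : Subfield K) : Tower k E V L → IsFiniteWithoutDefect V L L' → Tower k E V L'
  /-- The step from `L` to `L(W)`, `W` a finite set, where the valuation is a tensor product: for
  each finite set `Z` of elements of the ring `L[W]` there is a factor `B`. (If `W` generates the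
  `k`-algebra `B` then this is the step from `L` to `L F`, where `F` is the fraction field
  of `B`.) -/
  | product (L : Subfield K) (W : Finset K) : Tower k E V L →
    (∀ Z : Finset K, (∀ z ∈ Z, z ∈ Subring.closure ((L : Set K) ∪ W)) →
      ∃ B : Subalgebra k K, IsFactor V L W Z B) →
    Tower k E V (L ⊔ Subfield.closure (W : Set K))

/-- Let `V` be a valuation ring of a field `K`, of arbitrary rank, let `k` be a field with
`k → K`, and let `R ⊆ V` be a noetherian `k`-subalgebra of `K`, with fraction field `E`. Suppose
that `R` is a Dedekind ring (or a field), or that `V ∩ E` is log uniformizable on `Spec R`. Suppose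
that `K` is reached from `E` by a tower as above. Let `A ⊆ V` be an `R`-algebra of finite type with
fraction field `K`. Then `V` is log uniformizable on `X = Spec A`: for every closed subset `V(D)`
of `X` and for every blowing-up `X₀` of `X` there is a blowing-up of `X` which factors through `X₀`
and which is a log desingularization of `(X, V(D))` along `V`. -/
theorem result {k K : Type} [Field k] [Field K] [Algebra k K] (V : ValuationSubring K)
    (R : Subalgebra k K) [IsNoetherianRing R] (hRV : ∀ a ∈ R, a ∈ V)
    (hR : IsDedekindDomain R ∨ RestrictionIsLogUniformizable V R.toSubring)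
    (hK : Tower k (Subfield.closure (R : Set K)) V ⊤)
    (G : Set K) (hG : G.Finite) (A : Subring K)
    (hA : A = Subring.closure ((R : Set K) ∪ G)) (hAV : A ≤ V.toSubring)
    (hAK : ∀ z : K, ∃ a ∈ A, ∃ b ∈ A, b ≠ 0 ∧ z = a * b⁻¹) :
    IsLogUniformizable V A := by
  have hMod := Pool.Agent.T6.H41.TP.mod_closure V R hRV
  let e : R ≃+* (R.toSubring.comap (Subfield.closure (R : Set K)).subtype) :=
    { toFun := fun b => ⟨⟨b.1, Subfield.subset_closure b.2⟩, b.2⟩
      invFun := fun b => ⟨b.1.1, b.2⟩
      left_inv := fun _ => rfl
      right_inv := fun _ => rfl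
      map_mul' := fun _ _ => rfl
      map_add' := fun _ _ => rfl }
  have hNoe : IsNoetherianRing (R.toSubring.comap (Subfield.closure (R : Set K)).subtype) :=
    isNoetherianRing_of_ringEquiv R e
  have hLU : LogUnif (V.comap (Subfield.closure (R : Set K)).subtype)
      (R.toSubring.comap (Subfield.closure (R : Set K)).subtype) := by
    rcases hR with hR | hR
    · have hD : IsDedekindDomain (R.toSubring.comap (Subfield.closure (R : Set K)).subtype) :=
        Pool.Agent.T6.H41.TP.dedekind_equiv e
      exact logUnif_of_dedekind _ _ hMod.1 hMod.2
    · exact hR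
  have hbase : Pool.Agent.H176.DT.Inv V R.toSubring
      (Subfield.closure (R : Set K)).subtype := by
    have h1 := Pool.Agent.H176.DT.sub_base V
      (R.toSubring.comap (Subfield.closure (R : Set K)).subtype) hMod hLU
    have h2 : (algebraMap (Subfield.closure (R : Set K)) K).fieldRange =
        Subfield.closure (R : Set K) := Subfield.fieldRange_subtype _
    have h3 : (R.toSubring.comap (Subfield.closure (R : Set K)).subtype).map
        (algebraMap (Subfield.closure (R : Set K)) K) = R.toSubring := by
      ext z
      constructor
      · rintro ⟨y, hy, rfl⟩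
        exact hy
      · intro hz
        exact ⟨⟨z, Subfield.subset_closure hz⟩, hz, rfl⟩
    rw [h2, h3] at h1
    exact h1
  have kp : ∀ {L : Subfield K} {θ : K} {ϕ : Polynomial L}, IsKey V θ ϕ → IsDefectless V θ ϕ →
      ∃ (n : ℕ) (β : Fin n → Polynomial L), Pool.Agent.H176.DT.KP V θ ϕ β := by
    rintro L θ ϕ ⟨h1, h2, h3⟩ ⟨n, β, h4, h5, h6⟩
    exact ⟨n, β, h1, h2, fun i => (h4 i).1, fun i => (h4 i).2, h5, h6, h3⟩
  have key : ∀ L : Subfield K, Tower k (Subfield.closure (R : Set K)) V L →
      Pool.Agent.H176.DT.Inv V R.toSubring L.subtype := by
    intro L hL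
    induction hL with
    | base => exact hbase
    | transcendental L t _ ht hdom ih =>
      refine Pool.Agent.H176.DT.sub_trans V _ t ht (fun f => ?_) ih
      obtain ⟨ϕ, h1, h2, N, d, h3, h4, h5⟩ := hdom f
      obtain ⟨n, β, h6⟩ := kp h1 h2
      exact ⟨ϕ, n, β, h6, N, d, ⟨h3, h4⟩, h5⟩
    | finite L L' _ hnd ih => exact Pool.Agent.H176.DT.sub_nd V _ hnd.1 hnd.2 ih
    | product L W _ hF ih =>
      refine Pool.Agent.T6.H41.TP.inv_step (k := k) V R.toSubring
        (fun c => R.algebraMap_mem c) W ih fun Z hZ => ?_
      obtain ⟨B, hB⟩ := hF Z hZ
      exact ⟨B, hB.finiteType, hB.le_ring, hB.le_valuationRing, hB.logUniformizable,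
        hB.residueField, hB.linearlyDisjoint, hB.isSumOfProducts⟩
  have hN : IsNoetherianRing R.toSubring := ‹IsNoetherianRing R›
  exact Pool.Agent.H176.DT.sub_fin V _ (key ⊤ hK) A G hG hA ⟨hAV, hAK⟩

end Pool.Agent.Results.MP_5b7a2c_ag.ProductTowers
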