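import Pool.Agent.TH214.U.Abs
import Pool.Agent.T6.H12.Y.Cov

/-!
MP_5b7a2c_ag: uniformization, on all models, of the valuations of wildly ramified covers of Frobenius
towers which are determined by their values on the group of the tower.

The fields: `E 1, ..., E m` are linearly disjoint function fields of surfaces over the algebraically
closed field `k` of characteristic `p` (`m = 0` is allowed), `F` is the top field of a Frobenius
tower over them, and `K` is generated over `F` by elements `w j` such that the `w j ^ p - w j` are
integral linear combinations `∑ c i * g i` of functions `g i ∈ E i` (for example `K = F`). The tower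
comes with a group `G` of functions. It starts with the group generated by the nonzero constants
and the nonzero elements of the `E i`, and the steps are: (1) a new variable `x`; new functions are
the polynomials in `x` over the `E i` of degree less than `p`; (2) differences `a - b` of functions
of the group for which `a ^ N - b ^ N` is in the group, `N` prime to `p`; (3) a Frobenius
arrangement, for instance `t - a 1, ..., t - a r` where `t` is a new variable and the `a i - a j`
are in the group, or all additive polynomials of bounded degree with constant terms in new
variables over a finite field; (4) the pull-back of a tame cover of the projective line. Unions of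
such groups for one field are allowed, for instance infinitely many functions `t - a i` in (3).

The valuations: on a subalgebra `C` of `K` over which `K` is algebraic the valuation is determined by
its values on `G`: every `z ∈ C` is a sum of elements of `G` whose values are not larger than
the value of `z` (in multiplicative notation). The induced valuations of the `E i` are arbitrary, for
example with infinitely many free and satellite points, and with defect in the wildly ramified
extension `K / F`. On a line `F(x)` it can be a valuation given by an infinite sequence of key
polynomials `P n (x)` over `E i` of degree less than `p`; on `F(t)` it can be an immediate extension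
given by a pseudo-convergent sequence of transcendental type of elements `a n ∈ F ∩ C` with
differences `a i - a j` in the group; in a tensor product it can be the tensor product of
valuations of the factors.

The theorem: such a valuation is uniformizable on every affine variety with the function field `K`:
every blowing-up is dominated by a blowing-up which is regular at the centre of the valuation.

The proof: (1) By my library Pool/Agent/T6/H12/X (see MP_b525bf_ag.FrobeniusTowers) every finite
subset of `G` is contained in the group of monomials of a family of functions which satisfies schön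
equations over the `E i`. This gives smooth projective models of `K`, also for the Artin-Schreier
covers, on which finitely many elements of `G` are locally monomials in the equations of a divisor
with normal crossings. (2) By the criterion of Pool/Agent/TH214/U (see TensorValuations) the local
rings of these models at the centres exhaust the valuation ring: the elements of the fraction field
of `C` are monomials times units, since their leading terms dominate the other ones, and smooth
algebras are normal. (3) Affine charts of projective models are charts of blowings-up.

helper12; built on the library of the starting files (helper214 and the helpers named there).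
-/

set_option autoImplicit false

namespace Pool.Agent.Results.MP_5b7a2c_ag.WildFrobeniusTowers

open Pool.Agent.W418.LU2 Pool.Agent.TH188.VT Pool.Agent.T6.H12.X

/-- The local ring of `Spec B` at the centre of the valuation ring `V`: the fractions of elements
of `B` whose denominators are units of `V`. -/
def centreRing {F : Type} [Field F] (V : ValuationSubring F) (B : Subring F) : Subring F where
  carrier := {x | ∃ a ∈ B, ∃ b ∈ B, b ≠ 0 ∧ b⁻¹ ∈ V ∧ x = a * b⁻¹}
  mul_mem' := (lo V.toSubring B).mul_mem'
  one_mem' := (lo V.toSubring B).one_mem'
  add_mem' := (lo V.toSubring B).add_mem'
  zero_mem' := (lo V.toSubring B).zero_mem'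
  neg_mem' := (lo V.toSubring B).neg_mem'

/-- The chart `A[I / f]` of the blowing-up of `Spec A` in the ideal `I`. -/
def blowUpChart {F : Type} [Field F] (A : Subring F) (I : Ideal A) (f : A) : Subring F :=
  Subring.closure ((A : Set F) ∪ {z | ∃ a ∈ I, z = (a : F) / (f : F)})

/-- The blowing-up of `X = Spec A` in the ideal `I` is regular at the centre of the lift of the
valuation. Here `f ∈ I` generates `I V`, so the centre lies in the chart `Spec A[I / f]`. -/
def IsRegularAtCentre {F : Type} [Field F] (V : ValuationSubring F) (A : Subring F)
    (I : Ideal A) : Prop :=
  ∃ f ∈ I, f ≠ 0 ∧ (∀ a ∈ I, (a : F) / (f : F) ∈ V) ∧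
    IsRegularLocalRing (centreRing V (blowUpChart A I f))

/-- The valuation ring `V` is uniformizable on `Spec A`: some cofinal family of blowings-up of
`Spec A` consists of blowings-up which are regular at the centre of the lift of the valuation. (The
blowing-up in `I₀ * I₁` factors through the blowing-up in `I₀`, and the ideals `I₀ ≠ 0` are
arbitrary.) -/
def IsUniformizable {F : Type} [Field F] (V : ValuationSubring F) (A : Subring F) : Prop :=
  ∀ I₀ : Ideal A, I₀ ≠ ⊥ → ∃ I₁ : Ideal A, I₁ ≠ ⊥ ∧ IsRegularAtCentre V A (I₀ * I₁)

/-- The field `F` and the group `G` are a union of Frobenius towers over the `E i`: every finite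
subset of `G` is contained in the group of a Frobenius tower with the field `F`. -/
def IsUnionOfTowers {k K : Type} [Field k] [Field K] [Algebra k K] (p : ℕ) {m : ℕ}
    (E : Fin m → IntermediateField k K) (F : IntermediateField k K) (G : Subgroup Kˣ) : Prop :=
  ∀ T : Finset Kˣ, (∀ u ∈ T, u ∈ G) →
    ∃ G' : Subgroup Kˣ, IsFrobeniusTower p E F G' ∧ ∀ u ∈ T, u ∈ G'

/-- On the subalgebra `C` of `K` the valuation is determined by its values on the group `G`: every
element `z` of `C` is a finite sum of elements of `G` whose values (in multiplicative notation) are
at most the value of `z`. -/
def IsDeterminedBy {k K : Type} [Field k] [Field K] [Algebra k K] (V : ValuationSubring K)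
    (G : Subgroup Kˣ) (C : Subalgebra k K) : Prop :=
  ∀ z ∈ C, ∃ (N : ℕ) (a : Fin N → Kˣ), (∀ j, a j ∈ G) ∧ z = ∑ j, (a j : K) ∧
    ∀ j, V.valuation (a j : K) ≤ V.valuation z

/-- Let `k` be an algebraically closed field of characteristic `p`, and let `E 1, ..., E m`,
`m ≥ 0`, be linearly disjoint function fields of smooth projective surfaces over `k` in the field
extension `K` of `k` (or `E i = k(x i 0, x i 1)` with algebraically independent `x i j`). Let the
subfield `F` and the subgroup `G` of the multiplicative group of `K` be a union of Frobenius towers
over the `E i`, and let `K` be generated over `F` by elements `w j` such that the `w j ^ p - w j` are integral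
linear combinations of functions `g i ∈ E i`. Let `V` be a valuation ring of `K` over `k` which is
determined by its values on `G` on a subalgebra `C` over which `K` is algebraic. Then `V` is
uniformizable on every affine variety `Spec A` over `k` with the function field `K` on which it has
a centre. -/
theorem result (p : ℕ) [Fact p.Prime] (k K : Type) [Field k] [IsAlgClosed k] [CharP k p]
    [Field K] [Algebra k K] (m r : ℕ) (E : Fin m → IntermediateField k K)
    (hE : AreIndependentSurfaceFields E) (F : IntermediateField k K) (G : Subgroup Kˣ)
    (hG : IsUnionOfTowers p E F G) (w : Fin r → K) (g : ∀ i, E i)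
    (hw : ∀ j, w j ^ p - w j ∈ AddSubgroup.closure (Set.range fun i => (g i : K)))
    (hK : IntermediateField.adjoin F (Set.range w) = ⊤)
    (V : ValuationSubring K) (hkV : ∀ c : k, algebraMap k K c ∈ V)
    (C : Subalgebra k K) (hC : ∀ x : K, IsAlgebraic C x) (hV : IsDeterminedBy V G C)
    (A : Subalgebra k K) (hA : A.FG)
    (hfr : ∀ x : K, ∃ a ∈ A, ∃ b ∈ A, b ≠ 0 ∧ x = a * b⁻¹) (hAV : ∀ a ∈ A, a ∈ V) :
    IsUniformizable V A.toSubring := by
  classical
  have hfg : ∃ S0 : Finset K, IntermediateField.adjoin k (S0 : Set K) = ⊤ := by
    obtain ⟨S0, hS0⟩ := hA
    refine ⟨S0, ?_⟩
    rw [_root_.eq_top_iff]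
    intro x _
    obtain ⟨a, ha, b, hb, -, rfl⟩ := hfr x
    rw [← hS0] at ha hb
    exact mul_mem (IntermediateField.algebra_adjoin_le_adjoin k _ ha)
      (inv_mem (IntermediateField.algebra_adjoin_le_adjoin k _ hb))
  have hadj : Algebra.adjoin k (C : Set K) = C := Algebra.adjoin_eq C
  have hT : ∀ z ∈ Algebra.adjoin k (C : Set K),
      Pool.Agent.TH214.U.Dmn V (Units.val '' (G : Set Kˣ)) z := by
    intro z hz
    rw [hadj] at hz
    obtain ⟨N, a, ha, hz', hv⟩ := hV z hz
    exact ⟨N, fun j => (a j : K), fun j => Or.inr ⟨a j, ha j, rfl⟩, hz', hv⟩
  have halg : ∀ x : K, IsAlgebraic (IntermediateField.adjoin k (C : Set K)) x := by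
    intro x
    obtain ⟨P, hP0, hP⟩ := hC x
    let φ : C →+* IntermediateField.adjoin k (C : Set K) :=
      { toFun := fun c => ⟨c, IntermediateField.subset_adjoin k _ c.2⟩
        map_one' := rfl
        map_mul' := fun _ _ => rfl
        map_zero' := rfl
        map_add' := fun _ _ => rfl }
    have hφ : Function.Injective φ := fun a b hab =>
      Subtype.ext (congrArg (fun c : IntermediateField.adjoin k (C : Set K) => (c : K)) hab)
    refine ⟨P.map φ, (Polynomial.map_ne_zero_iff hφ).2 hP0, ?_⟩
    rw [Polynomial.aeval_def, Polynomial.eval₂_map]
    exact hP
  have h := Pool.Agent.TH214.U.unif_abs V hkV (C : Set K) (Units.val '' (G : Set Kˣ)) (by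
    rintro _ ⟨u, -, rfl⟩
    exact u.ne_zero) hT halg (fun S _ v hv => by
      have hfin : Fintype S := Fintype.ofFinite S
      choose u hu huv using hv
      obtain ⟨G1, hG1, hGT⟩ := hG (Finset.univ.image u) (by
        intro c hc
        obtain ⟨b, -, rfl⟩ := Finset.mem_image.1 hc
        exact hu b)
      exact Pool.Agent.T6.H12.Y.models_wild p hE hG1 w g hw hK hfg S v fun b =>
        ⟨u b, hGT _ (Finset.mem_image_of_mem u (Finset.mem_univ b)), huv b⟩) A hA hAV hfr
  intro I₀ hI₀
  obtain ⟨I₁, hI₁, f, hf, hf0, hfV, hreg⟩ := h I₀ hI₀
  exact ⟨I₁, hI₁, f, hf, hf0, hfV, hreg⟩

end Pool.Agent.Results.MP_5b7a2c_ag.WildFrobeniusTowers
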